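import Mathlib
import Pool.Agent.H640R2.PhaseMuDefs
import Pool.Agent.H640R2.PhaseMuMain

namespace Pool.Agent.Results.MP_0eb722_an.Characterization

open H640R2.PhaseMu

/-- **Main theorem.** A complete description of the pairs `(M, θ)` with `μ_θ(M) = μ̂_θ(M)`.
(1) For every `n`, every `M` and every `θ ∈ [0, π/2]`, equality holds iff no unit vector `x` has
`-x*Mx` in the sector, or some unit vector `x` with `-Re x*Mx ≥ cos θ ‖Mx‖` maximises `‖Mx‖` over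
the unit vectors `y` with `-y*My` in the sector.
(2) For `θ = π/2` equality always holds.
(3) For `θ < π/2` equality holds iff (a) `Mx = 0` whenever `-x*Mx` is in the sector, or (b) a unit
top singular vector `x` has `-Re x*Mx ≥ cos θ ‖Mx‖`, or (c) `M` has a common unit eigenvector `x`
with `Mx = λx`, `M*x = conj λ x`, `λ ≠ 0`, `|arg (-λ)| = θ`, and `‖My‖ ≤ |λ| ‖y‖` whenever `-y*My`
is in the sector.
(4) For every `n ≥ 2` and `θ < π/2` there is `M` with `μ_θ(M) = 0` and `μ̂_θ(M) = 1`. -/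
theorem result :
    (∀ (n : ℕ) (M : Matrix (Fin n) (Fin n) ℂ) (θ : ℝ), 0 ≤ θ → θ ≤ Real.pi / 2 →
      (mu θ M = muHat θ M ↔ Criterion θ M)) ∧
    (∀ (n : ℕ) (M : Matrix (Fin n) (Fin n) ℂ), mu (Real.pi / 2) M = muHat (Real.pi / 2) M) ∧
    (∀ (n : ℕ) (M : Matrix (Fin n) (Fin n) ℂ) (θ : ℝ), 0 ≤ θ → θ < Real.pi / 2 →
      (mu θ M = muHat θ M ↔ CaseA θ M ∨ CaseB θ M ∨ CaseC θ M)) ∧
    (∀ (n : ℕ), 2 ≤ n → ∀ θ : ℝ, 0 ≤ θ → θ < Real.pi / 2 →
      ∃ M : Matrix (Fin n) (Fin n) ℂ, mu θ M = 0 ∧ muHat θ M = 1) :=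
  ⟨fun _ M _ h0 h1 => criterion' M h0 h1, fun _ M => exact_pi_div_two M,
    fun _ M _ h0 h1 => trichotomy' M h0 h1,
    fun n hn _ h0 h1 => ⟨skew n hn, skew_example n hn h0 h1⟩⟩

end Pool.Agent.Results.MP_0eb722_an.Characterization
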